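import Pool.Agent.P8H44.PG.Tor

/-!
# Project PG, package DI: all elements are quasi-unipotent
-/

set_option autoImplicit false

open Polynomial

namespace Pool.Agent.P8H44.PG

open Pool.Agent.P8H24.PG

variable {M : Type} [AddCommGroup M]

/-- the integer polynomial over the rationals -/
noncomputable abbrev mq (P : ℤ[X]) : ℚ[X] := P.map (Int.castRingHom ℚ)

/-- each rational polynomial has an integral multiple -/
lemma clear (S : ℚ[X]) : ∃ (D : ℕ) (S' : ℤ[X]), 0 < D ∧ mq S' = (D : ℚ[X]) * S := by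
  induction S using Polynomial.induction_on' with
  | add p q hp hq =>
    obtain ⟨D, P, hD, hP⟩ := hp
    obtain ⟨E, Q, hE, hQ⟩ := hq
    refine ⟨D * E, (E : ℤ[X]) * P + (D : ℤ[X]) * Q, Nat.mul_pos hD hE, ?_⟩
    unfold mq at hP hQ ⊢
    rw [Polynomial.map_add, Polynomial.map_mul, Polynomial.map_mul, hP, hQ, Polynomial.map_natCast,
      Polynomial.map_natCast]
    push_cast
    ring
  | monomial n a =>
    refine ⟨a.den, monomial n a.num, a.den_pos, ?_⟩
    unfold mq
    rw [map_monomial, ← C_eq_natCast, C_mul_monomial]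
    congr 1
    simp [Rat.den_mul_eq_num]

/-- the rational polynomials which kill `x` up to torsion -/
def annI (f : M ≃+ M) (x : M) : Ideal ℚ[X] where
  carrier := {R | ∃ (N : ℕ) (P : ℤ[X]), 0 < N ∧ mq P = (N : ℚ[X]) * R ∧ aeval (FE f) P x = 0}
  add_mem' := by
    rintro R S ⟨N, P, hN, hP, h1⟩ ⟨E, Q, hE, hQ, h2⟩
    refine ⟨N * E, (E : ℤ[X]) * P + (N : ℤ[X]) * Q, Nat.mul_pos hN hE, ?_, ?_⟩
    · unfold mq at hP hQ ⊢
      rw [Polynomial.map_add, Polynomial.map_mul, Polynomial.map_mul, hP, hQ,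
        Polynomial.map_natCast, Polynomial.map_natCast]
      push_cast
      ring
    · rw [map_add, map_mul, map_mul]
      show aeval (FE f) (E : ℤ[X]) (aeval (FE f) P x) + aeval (FE f) (N : ℤ[X]) (aeval (FE f) Q x) = 0
      rw [h1, h2, map_zero, map_zero, add_zero]
  zero_mem' := ⟨1, 0, one_pos, by simp, by simp⟩
  smul_mem' := by
    rintro S R ⟨N, P, hN, hP, h1⟩
    obtain ⟨D, S', hD, hS⟩ := clear S
    refine ⟨D * N, S' * P, Nat.mul_pos hD hN, ?_, ?_⟩
    · unfold mq at hP hS ⊢
      rw [Polynomial.map_mul, hP, hS, smul_eq_mul]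
      push_cast
      ring
    · rw [map_mul]
      show aeval (FE f) S' (aeval (FE f) P x) = 0
      rw [h1, map_zero]

lemma mem_annI {f : M ≃+ M} {x : M} {R : ℚ[X]} : R ∈ annI f x ↔
    ∃ (N : ℕ) (P : ℤ[X]), 0 < N ∧ mq P = (N : ℚ[X]) * R ∧ aeval (FE f) P x = 0 := Iff.rfl

lemma annI_of_int {f : M ≃+ M} {x : M} {P : ℤ[X]} (h : aeval (FE f) P x = 0) :
    mq P ∈ annI f x := ⟨1, P, one_pos, by simp, h⟩

lemma aeval_term (f : M ≃+ M) (a : ℤ) (k : ℕ) (x : M) :
    aeval (FE f) (C a * X ^ k) x = a • (f^[k]) x := by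
  rw [map_mul, aeval_C, map_pow, aeval_X, eq_intCast]
  show (a : AddMonoid.End M) ((FE f ^ k) x) = _
  rw [FE_pow]
  exact AddMonoid.End.intCast_apply a _

lemma sum_end_apply {ι : Type} (s : Finset ι) (φ : ι → AddMonoid.End M) (x : M) :
    (∑ i ∈ s, φ i) x = ∑ i ∈ s, φ i x := by
  classical
  induction s using Finset.induction_on with
  | empty => rfl
  | insert a s ha ih =>
    rw [Finset.sum_insert ha, Finset.sum_insert ha, ← ih]
    rfl

theorem di : S_RU → S_TOR → S_DI := by
  intro hRU hTOR M _ f hD hT x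
  -- the relations
  have hQ : ∀ L : ℕ, 1 ≤ L → ∃ Q P : ℤ[X], Q ≠ 0 ∧ (∀ i, |Q.coeff i| ≤ 2) ∧
      aeval (FE f) P x = 0 ∧ P = Q.comp (X ^ L) := by
    intro L hL
    have h3 := hD L x hL
    unfold Dissociate at h3
    push Not at h3
    obtain ⟨n, a, ha, h0, j, hj, hja⟩ := h3
    have hco : ∀ i, (∑ j ∈ Finset.range n, C (a j) * X ^ j : ℤ[X]).coeff i =
        if i ∈ Finset.range n then a i else 0 := by
      intro i
      rw [finsetSum_coeff]
      simp only [coeff_C_mul, coeff_X_pow, mul_ite, mul_one, mul_zero]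
      rw [Finset.sum_ite_eq]
    refine ⟨∑ j ∈ Finset.range n, C (a j) * X ^ j, ∑ j ∈ Finset.range n, C (a j) * X ^ (L * j),
      ?_, ?_, ?_, ?_⟩
    · intro h4
      have h5 := hco j
      rw [h4, if_pos (Finset.mem_range.2 hj), coeff_zero] at h5
      exact hja h5.symm
    · intro i
      rw [hco]
      split_ifs
      · exact ha i
      · simp
    · rw [← h0, map_sum, sum_end_apply]
      exact Finset.sum_congr rfl fun j _ => aeval_term f _ _ x
    · have hsc : ∀ s : Finset ℕ, (∑ j ∈ s, C (a j) * X ^ j : ℤ[X]).comp (X ^ L) =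
          ∑ j ∈ s, (C (a j) * X ^ j : ℤ[X]).comp (X ^ L) := by
        classical
        intro s
        induction s using Finset.induction_on with
        | empty => simp
        | insert b s hb ih => rw [Finset.sum_insert hb, Finset.sum_insert hb, add_comp, ih]
      rw [hsc]
      refine Finset.sum_congr rfl fun j _ => ?_
      rw [mul_comp, C_comp, pow_comp, X_comp, ← pow_mul]
  -- the generator of the ideal
  obtain ⟨g, hg⟩ := IsPrincipalIdealRing.principal (annI f x)
  have hg' : ∀ R : ℚ[X], R ∈ annI f x ↔ g ∣ R := by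
    intro R
    rw [hg]
    exact Ideal.mem_span_singleton
  have hginj : Function.Injective (Polynomial.map (Int.castRingHom ℚ)) :=
    Polynomial.map_injective _ (RingHom.injective_int (Int.castRingHom ℚ))
  have hg0 : g ≠ 0 := by
    obtain ⟨Q, P, hQ0, -, hP, hPQ⟩ := hQ 1 le_rfl
    intro h0
    have h1 := (hg' _).1 (annI_of_int hP)
    rw [h0, zero_dvd_iff] at h1
    have h2 : P = 0 := hginj (by rw [Polynomial.map_zero]; exact h1)
    rw [h2, pow_one, comp_X] at hPQ
    exact hQ0 hPQ.symm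
  have hgX : ¬ X ∣ g := by
    rintro ⟨g', hgg⟩
    have h1 : g ∈ annI f x := (hg' g).2 dvd_rfl
    obtain ⟨N, P, hN, hP, h2⟩ := mem_annI.1 h1
    have h3 : X ∣ P := by
      rw [X_dvd_iff]
      have h4 : (mq P).coeff 0 = 0 := by
        rw [hP, hgg, mul_left_comm, coeff_X_mul_zero]
      rw [coeff_map] at h4
      exact (RingHom.injective_int (Int.castRingHom ℚ)) (by rw [h4, map_zero])
    obtain ⟨P', hP'⟩ := h3
    have h5 : mq P' = (N : ℚ[X]) * g' := by
      have h6 : (X : ℚ[X]) * mq P' = X * ((N : ℚ[X]) * g') := by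
        have h7 : mq P = X * mq P' := by
          unfold mq
          rw [hP', Polynomial.map_mul, Polynomial.map_X]
        rw [← h7, hP, hgg]
        ring
      exact mul_left_cancel₀ X_ne_zero h6
    have h8 : aeval (FE f) P' x = 0 := by
      rw [hP', map_mul, aeval_X] at h2
      have h9 : f (aeval (FE f) P' x) = 0 := h2
      exact (map_eq_zero_iff f f.injective).1 h9
    have h9 : g ∣ g' := (hg' g').1 (mem_annI.2 ⟨N, P', hN, h5, h8⟩)
    have hg'0 : g' ≠ 0 := by
      rintro rfl
      rw [mul_zero] at hgg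
      exact hg0 hgg
    have h10 := Polynomial.natDegree_le_of_dvd h9 hg'0
    have h11 : g.natDegree = g'.natDegree + 1 := by
      rw [hgg, natDegree_mul X_ne_zero hg'0, natDegree_X, add_comm]
    omega
  -- the complex roots
  set G : ℂ[X] := g.map (algebraMap ℚ ℂ) with hGdef
  have hG0 : G ≠ 0 := by
    rw [hGdef, Ne, Polynomial.map_eq_zero]
    exact hg0
  have hroot : ∀ z ∈ G.roots, ∃ n : ℕ, 0 < n ∧ z ^ n = 1 := by
    intro z hz
    rw [mem_roots hG0] at hz
    have hz' : eval₂ (algebraMap ℚ ℂ) z g = 0 := by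
      rw [← eval_map]; exact hz
    refine hRU z ?_ ?_
    · rintro rfl
      apply hgX
      rw [X_dvd_iff]
      rw [eval₂_at_zero] at hz'
      exact (map_eq_zero _).1 hz'
    · intro L hL
      obtain ⟨Q, P, hQ0, hQc, hP, hPQ⟩ := hQ L hL
      refine ⟨Q, hQ0, hQc, ?_⟩
      obtain ⟨R, hR⟩ := (hg' _).1 (annI_of_int hP)
      have h1 : aeval z P = 0 := by
        have h2 : aeval z P = eval₂ (algebraMap ℚ ℂ) z (mq P) := by
          rw [eval₂_map, aeval_def, Subsingleton.elim ((algebraMap ℚ ℂ).comp (Int.castRingHom ℚ))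
            (algebraMap ℤ ℂ)]
        rw [h2, hR, eval₂_mul, hz', zero_mul]
      rw [hPQ, aeval_comp, map_pow, aeval_X] at h1
      exact h1
  choose! n hn hn1 using hroot
  set m : ℕ := (G.roots.map n).prod with hm
  have hmpos : 0 < m := by
    rw [hm]
    refine Nat.pos_of_ne_zero fun h0 => ?_
    rw [Multiset.prod_eq_zero_iff, Multiset.mem_map] at h0
    obtain ⟨z, hz, hz0⟩ := h0
    have := hn z hz
    omega
  have hGdvd : G ∣ ((X : ℂ[X]) ^ m - 1) ^ G.natDegree := by
    have hsp : G.Splits := IsAlgClosed.splits G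
    have h1 : G = C G.leadingCoeff * (G.roots.map fun a => X - C a).prod := hsp.eq_prod_roots
    have h2 : (G.roots.map fun a => X - C a).prod ∣ ((X : ℂ[X]) ^ m - 1) ^ G.roots.card := by
      have h3 : ∀ a ∈ G.roots, (X - C a) ∣ ((X : ℂ[X]) ^ m - 1) := by
        intro a ha
        rw [dvd_iff_isRoot]
        have h4 : n a ∣ m := Multiset.dvd_prod (Multiset.mem_map_of_mem n ha)
        obtain ⟨c, hc⟩ := h4
        simp only [IsRoot.def, eval_sub, eval_pow, eval_X, eval_one]
        rw [hc, pow_mul, hn1 a ha, one_pow, sub_self]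
      have h5 : ∀ s : Multiset ℂ, (∀ a ∈ s, (X - C a) ∣ ((X : ℂ[X]) ^ m - 1)) →
          (s.map fun a => X - C a).prod ∣ ((X : ℂ[X]) ^ m - 1) ^ s.card := by
        intro s
        induction s using Multiset.induction_on with
        | empty => intro _; simp
        | cons a s ih =>
          intro h
          rw [Multiset.map_cons, Multiset.prod_cons, Multiset.card_cons, pow_succ, mul_comm]
          exact mul_dvd_mul (ih fun b hb => h b (Multiset.mem_cons_of_mem hb))
            (h a (Multiset.mem_cons_self a s))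
      exact h5 _ h3
    have h6 : G.roots.card ≤ G.natDegree := card_roots' G
    have h7 : IsUnit (C G.leadingCoeff : ℂ[X]) :=
      isUnit_C.2 (IsUnit.mk0 _ (leadingCoeff_ne_zero.2 hG0))
    refine dvd_trans ?_ (pow_dvd_pow _ h6)
    have h9 : G ∣ (G.roots.map fun a => X - C a).prod := by
      conv_lhs => rw [h1]
      exact (IsUnit.mul_left_dvd h7).2 dvd_rfl
    exact h9.trans h2
  have hgdvd : g ∣ ((X : ℚ[X]) ^ m - 1) ^ G.natDegree := by
    rw [← Polynomial.map_dvd_map' (algebraMap ℚ ℂ)]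
    rw [← hGdef, Polynomial.map_pow, Polynomial.map_sub, Polynomial.map_pow, Polynomial.map_X,
      Polynomial.map_one]
    exact hGdvd
  obtain ⟨N, P, hN, hP, h2⟩ := mem_annI.1 ((hg' _).2 hgdvd)
  have h3 : P = (N : ℤ[X]) * ((X : ℤ[X]) ^ m - 1) ^ G.natDegree := by
    apply hginj
    show mq P = _
    rw [hP, Polynomial.map_mul, Polynomial.map_natCast, Polynomial.map_pow, Polynomial.map_sub,
      Polynomial.map_pow, Polynomial.map_X, Polynomial.map_one]
  rw [h3, map_mul, map_natCast, map_pow, map_sub, map_pow, aeval_X, map_one] at h2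
  have h4 : N • (((FE f) ^ m - 1) ^ G.natDegree) x = 0 := by
    have h5 : (N : AddMonoid.End M) ((((FE f) ^ m - 1) ^ G.natDegree) x) = 0 := h2
    rw [AddMonoid.End.natCast_apply] at h5
    exact h5
  exact QUni_of hmpos _ (hTOR M f hD hT N _ hN h4)

end Pool.Agent.P8H44.PG
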