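import Pool.Agent.P8H24.PG.Stm2

/-!
# Project PG, package EXT: the maximal condition is closed under extensions
-/

set_option autoImplicit false

namespace Pool.Agent.P8H44.PG

open Pool.Agent.Helper611.PcGrp Pool.Agent.P8H24.PG

theorem ext : S_EXT := by
  intro S _ N _ h1 h2 T
  obtain ⟨A, hA, hAf⟩ := (Subgroup.fg_iff _).1 (h2 (T.map (QuotientGroup.mk' N)))
  obtain ⟨B, hB, hBf⟩ := (Subgroup.fg_iff _).1 (h1 (T.subgroupOf N))
  have hch : ∀ a ∈ A, ∃ t ∈ T, QuotientGroup.mk' N t = a := by
    intro a ha
    have : a ∈ T.map (QuotientGroup.mk' N) := by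
      rw [← hA]; exact Subgroup.subset_closure ha
    exact Subgroup.mem_map.1 this
  choose! t ht1 ht2 using hch
  refine (Subgroup.fg_iff _).2 ⟨t '' A ∪ Subtype.val '' B, ?_, (hAf.image t).union (hBf.image _)⟩
  apply le_antisymm
  · rw [Subgroup.closure_le]
    rintro x (⟨a, ha, rfl⟩ | ⟨b, hb, rfl⟩)
    · exact ht1 a ha
    · have : b ∈ T.subgroupOf N := by
        rw [← hB]; exact Subgroup.subset_closure hb
      exact this
  · intro x hx
    have h3 : QuotientGroup.mk' N x ∈ (Subgroup.closure (t '' A)).map (QuotientGroup.mk' N) := by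
      rw [MonoidHom.map_closure, ← Set.image_comp]
      have : (QuotientGroup.mk' N ∘ t) '' A = A := by
        ext a
        constructor
        · rintro ⟨b, hb, rfl⟩
          show QuotientGroup.mk' N (t b) ∈ A
          rw [ht2 b hb]; exact hb
        · intro ha
          exact ⟨a, ha, ht2 a ha⟩
      rw [this, hA]
      exact Subgroup.mem_map_of_mem _ hx
    obtain ⟨y, hy, hyx⟩ := Subgroup.mem_map.1 h3
    have hyT : y ∈ T := by
      have : Subgroup.closure (t '' A) ≤ T := by
        rw [Subgroup.closure_le]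
        rintro _ ⟨a, ha, rfl⟩
        exact ht1 a ha
      exact this hy
    have h4 : y⁻¹ * x ∈ N := by
      rw [← QuotientGroup.eq]
      exact hyx
    have h5 : (⟨y⁻¹ * x, h4⟩ : N) ∈ Subgroup.closure B := by
      rw [hB]
      show y⁻¹ * x ∈ T
      exact T.mul_mem (T.inv_mem hyT) hx
    have h6 : y⁻¹ * x ∈ Subgroup.closure (Subtype.val '' B) := by
      have h7 := Subgroup.mem_map_of_mem N.subtype h5
      rw [MonoidHom.map_closure] at h7
      exact h7
    have h8 : x = y * (y⁻¹ * x) := by group
    rw [h8]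
    exact Subgroup.mul_mem _ (Subgroup.closure_mono Set.subset_union_left hy)
      (Subgroup.closure_mono Set.subset_union_right h6)

end Pool.Agent.P8H44.PG
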