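import Pool.Agent.P8H24.PG.Stm2

/-!
# Project PG, package RU: a criterion for roots of unity
-/

set_option autoImplicit false

open Polynomial

namespace Pool.Agent.P8H44.PG

open Pool.Agent.P8H24.PG

lemma lead_ge {Q : ℤ[X]} (hQ : Q ≠ 0) : (1 : ℤ) ≤ |Q.leadingCoeff| :=
  Int.one_le_abs (leadingCoeff_ne_zero.2 hQ)

/-- roots of polynomials with small integer coefficients -/
lemma root_bound {Q : ℤ[X]} (hQ : Q ≠ 0) (hc : ∀ i, |Q.coeff i| ≤ 2) {w : ℂ}
    (hw : aeval w Q = 0) : ‖w‖ ≤ 3 := by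
  by_contra hcon
  push Not at hcon
  set n := Q.natDegree with hn
  have h1 : (1 : ℝ) ≤ ‖((Q.coeff n : ℤ) : ℂ)‖ := by
    rw [Complex.norm_intCast]
    exact_mod_cast lead_ge hQ
  rw [aeval_eq_sum_range, Finset.sum_range_succ, ← hn] at hw
  have h2 : ((Q.coeff n : ℤ) : ℂ) * w ^ n = - ∑ i ∈ Finset.range n, Q.coeff i • w ^ i := by
    rw [zsmul_eq_mul] at hw
    linear_combination hw
  have h3 : ‖w‖ ^ n ≤ ∑ i ∈ Finset.range n, 2 * ‖w‖ ^ i := by
    calc ‖w‖ ^ n ≤ ‖((Q.coeff n : ℤ) : ℂ)‖ * ‖w‖ ^ n := by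
          nlinarith [pow_nonneg (norm_nonneg w) n]
      _ = ‖- ∑ i ∈ Finset.range n, Q.coeff i • w ^ i‖ := by rw [← h2, norm_mul, norm_pow]
      _ ≤ ∑ i ∈ Finset.range n, ‖Q.coeff i • w ^ i‖ := by
          rw [norm_neg]; exact norm_sum_le _ _
      _ ≤ ∑ i ∈ Finset.range n, 2 * ‖w‖ ^ i := by
          refine Finset.sum_le_sum fun i _ => ?_
          rw [zsmul_eq_mul, norm_mul, norm_pow, Complex.norm_intCast]
          refine mul_le_mul_of_nonneg_right ?_ (by positivity)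
          exact_mod_cast hc i
  have h4 : (∑ i ∈ Finset.range n, 2 * ‖w‖ ^ i) * (‖w‖ - 1) = 2 * (‖w‖ ^ n - 1) := by
    rw [← Finset.mul_sum, mul_assoc, geom_sum_mul]
  have h5 : 0 < ‖w‖ ^ n := by positivity
  nlinarith

/-- `2 w` is integral for the roots of polynomials with coefficients in `{-2, …, 2}` -/
lemma int_two {K : Type*} [Field K] {Q : ℤ[X]} (hQ : Q ≠ 0) (hc : ∀ i, |Q.coeff i| ≤ 2) {w : K}
    (hw : aeval w Q = 0) : IsIntegral ℤ (2 * w) := by
  have h1 := isIntegral_leadingCoeff_smul Q w hw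
  have h2 : |Q.leadingCoeff| ≤ 2 := hc _
  have h3 : Q.leadingCoeff ≠ 0 := leadingCoeff_ne_zero.2 hQ
  have h4 : Q.leadingCoeff ∣ 2 := by
    rw [abs_le] at h2
    obtain ⟨h5, h6⟩ := h2
    interval_cases h : Q.leadingCoeff
    · exact ⟨-1, by norm_num⟩
    · exact ⟨-2, by norm_num⟩
    · exact absurd rfl h3
    · exact ⟨2, by norm_num⟩
    · exact ⟨1, by norm_num⟩
  obtain ⟨c, hcc⟩ := h4
  have h5 : (2 : K) * w = c • (Q.leadingCoeff • w) := by
    rw [smul_smul, mul_comm c, ← hcc, zsmul_eq_mul]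
    norm_num
  rw [h5]
  exact h1.smul c

theorem ru : S_RU := by
  intro z hz h
  obtain ⟨Q1, hQ1, -, hz1⟩ := h 1 le_rfl
  rw [pow_one] at hz1
  have halg : IsIntegral ℚ z := by
    rw [← isAlgebraic_iff_isIntegral]
    refine ⟨Q1.map (Int.castRingHom ℚ), ?_, ?_⟩
    · rwa [Ne, Polynomial.map_eq_zero_iff (RingHom.injective_int (Int.castRingHom ℚ))]
    · rw [aeval_def, eval₂_map, Subsingleton.elim ((algebraMap ℚ ℂ).comp (Int.castRingHom ℚ))
        (algebraMap ℤ ℂ)]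
      exact hz1
  let K := IntermediateField.adjoin ℚ {z}
  have : FiniteDimensional ℚ K := IntermediateField.adjoin.finiteDimensional halg
  have : NumberField K := { to_charZero := inferInstance, to_finiteDimensional := inferInstance }
  let x : K := ⟨z, IntermediateField.mem_adjoin_simple_self ℚ z⟩
  have hx0 : x ≠ 0 := by
    intro h0
    exact hz (congrArg Subtype.val h0)
  have hrel : ∀ L : ℕ, 1 ≤ L → ∃ Q : ℤ[X], Q ≠ 0 ∧ (∀ i, |Q.coeff i| ≤ 2) ∧ aeval (x ^ L) Q = 0 := by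
    intro L hL
    obtain ⟨Q, hQ, hc, h0⟩ := h L hL
    refine ⟨Q, hQ, hc, ?_⟩
    have h1 : ((aeval (x ^ L) Q : K) : ℂ) = aeval (z ^ L) Q := by
      have := Polynomial.hom_eval₂ Q (algebraMap ℤ K) (algebraMap K ℂ) (x ^ L)
      rw [aeval_def, aeval_def]
      refine Eq.trans this ?_
      rw [Subsingleton.elim ((algebraMap K ℂ).comp (algebraMap ℤ K)) (algebraMap ℤ ℂ), map_pow]
      rfl
    rw [h0] at h1
    exact Subtype.ext h1
  have hfin := NumberField.Embeddings.finite_of_norm_le K ℂ 6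
  have hmaps : ∀ L : ℕ, (2 * x ^ (L + 1) : K) ∈
      {x : K | IsIntegral ℤ x ∧ ∀ φ : K →+* ℂ, ‖φ x‖ ≤ 6} := by
    intro L
    obtain ⟨Q, hQ, hc, h0⟩ := hrel (L + 1) (by omega)
    refine ⟨int_two hQ hc h0, fun φ => ?_⟩
    have h1 : aeval (φ (x ^ (L + 1))) Q = 0 := by
      have := Polynomial.hom_eval₂ Q (algebraMap ℤ K) φ (x ^ (L + 1))
      rw [← aeval_def, h0, map_zero, Subsingleton.elim (φ.comp (algebraMap ℤ K)) (algebraMap ℤ ℂ),
        ← aeval_def] at this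
      exact this.symm
    have h2 := root_bound hQ hc h1
    rw [map_mul, norm_mul, map_ofNat]
    have h3 : ‖(2 : ℂ)‖ = 2 := by norm_num
    rw [h3]
    linarith
  obtain ⟨a, -, b, -, hab, heq⟩ := Set.infinite_univ.exists_ne_map_eq_of_mapsTo
    (fun L _ => hmaps L) hfin
  have key : ∀ a b : ℕ, a < b → (2 * x ^ (a + 1) : K) = 2 * x ^ (b + 1) →
      ∃ n : ℕ, 0 < n ∧ z ^ n = 1 := by
    intro a b hlt heq
    have h1 : x ^ (a + 1) = x ^ (b + 1) := mul_left_cancel₀ two_ne_zero heq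
    have h2 : x ^ (b + 1) = x ^ (a + 1) * x ^ (b - a) := by
      rw [← pow_add]; congr 1; omega
    rw [h2] at h1
    have h3 : x ^ (b - a) = 1 := by
      have h4 : x ^ (a + 1) * x ^ (b - a) = x ^ (a + 1) * 1 := by rw [mul_one]; exact h1.symm
      exact mul_left_cancel₀ (pow_ne_zero _ hx0) h4
    exact ⟨b - a, by omega, congrArg Subtype.val h3⟩
  rcases lt_or_gt_of_ne hab with hlt | hlt
  · exact key a b hlt heq
  · exact key b a hlt heq.symm

end Pool.Agent.P8H44.PG
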