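import Pool.Agent.P8H24.PG.Stm2

/-!
# Project PG, package TOR: torsion elements are quasi-unipotent
-/

set_option autoImplicit false

open Polynomial

namespace Pool.Agent.P8H44.PG

open Pool.Agent.P8H24.PG

variable {M : Type} [AddCommGroup M]

/-- the endomorphism -/
def FE (f : M ≃+ M) : AddMonoid.End M := f.toAddMonoidHom

lemma FE_apply (f : M ≃+ M) (x : M) : FE f x = f x := rfl

lemma FE_pow (f : M ≃+ M) (n : ℕ) (x : M) : ((FE f) ^ n) x = (f^[n]) x := by
  induction n generalizing x with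
  | zero => rfl
  | succ n ih =>
    rw [pow_succ, Function.iterate_succ_apply]
    exact ih (f x)

lemma iter_sub (f : M ≃+ M) (m k : ℕ) (x : M) :
    (fun y : M => (f^[m]) y - y)^[k] x = (((FE f) ^ m - 1) ^ k) x := by
  induction k generalizing x with
  | zero => rfl
  | succ k ih =>
    rw [Function.iterate_succ_apply, ih, pow_succ]
    show _ = (((FE f) ^ m - 1) ^ k) (((FE f) ^ m - 1) x)
    congr 1

lemma QUni_iff (f : M ≃+ M) (x : M) :
    QUni f x ↔ ∃ m : ℕ, 0 < m ∧ ∃ k : ℕ, (((FE f) ^ m - 1) ^ k) x = 0 := by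
  unfold QUni
  simp only [iter_sub]

/-- if `(f^m - 1)^k x` is quasi-unipotent then `x` is -/
lemma QUni_of {f : M ≃+ M} {x : M} {m : ℕ} (hm : 0 < m) (k : ℕ)
    (h : QUni f ((((FE f) ^ m - 1) ^ k) x)) : QUni f x := by
  rw [QUni_iff] at h ⊢
  obtain ⟨m', hm', k', h⟩ := h
  refine ⟨m * m', Nat.mul_pos hm hm', k + k', ?_⟩
  have h1 : (((X : ℤ[X]) ^ m - 1) ^ k * ((X : ℤ[X]) ^ m' - 1) ^ k') ∣
      ((X : ℤ[X]) ^ (m * m') - 1) ^ (k + k') := by
    rw [pow_add]
    refine mul_dvd_mul (pow_dvd_pow_of_dvd ?_ k) (pow_dvd_pow_of_dvd ?_ k')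
    · rw [pow_mul]
      simpa using sub_dvd_pow_sub_pow ((X : ℤ[X]) ^ m) 1 m'
    · rw [mul_comm m m', pow_mul]
      simpa using sub_dvd_pow_sub_pow ((X : ℤ[X]) ^ m') 1 m
  obtain ⟨G, hG⟩ := h1
  have h2 := congrArg (aeval (FE f)) hG
  simp only [map_pow, map_sub, map_mul, aeval_X, map_one] at h2
  rw [h2]
  have h3 : Commute ((FE f ^ m - 1) ^ k * (FE f ^ m' - 1) ^ k') (aeval (FE f) G) := by
    have h4 : (FE f ^ m - 1) ^ k * (FE f ^ m' - 1) ^ k' =
        aeval (FE f) (((X : ℤ[X]) ^ m - 1) ^ k * ((X : ℤ[X]) ^ m' - 1) ^ k') := by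
      simp only [map_pow, map_sub, map_mul, aeval_X, map_one]
    rw [h4]
    unfold Commute SemiconjBy
    rw [← map_mul, ← map_mul, mul_comm]
  have h5 : Commute ((FE f ^ m - 1) ^ k) ((FE f ^ m' - 1) ^ k') := by
    have h4 : (FE f ^ m - 1) ^ k = aeval (FE f) (((X : ℤ[X]) ^ m - 1) ^ k) := by
      simp only [map_pow, map_sub, aeval_X, map_one]
    have h6 : (FE f ^ m' - 1) ^ k' = aeval (FE f) (((X : ℤ[X]) ^ m' - 1) ^ k') := by
      simp only [map_pow, map_sub, aeval_X, map_one]
    rw [h4, h6]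
    unfold Commute SemiconjBy
    rw [← map_mul, ← map_mul, mul_comm]
  rw [h3.eq, h5.eq]
  show (aeval (FE f) G) (((FE f ^ m' - 1) ^ k') (((FE f ^ m - 1) ^ k) x)) = 0
  rw [h, map_zero]

/-- if `f^d x` lies in the span of the lower ones and `p x = 0` then the orbit of `x` is finite -/
lemma finite_orbit {f : M ≃+ M} {x : M} {p d : ℕ} (hp : 0 < p) (hx : p • x = 0)
    (hd : (f^[d]) x ∈ AddSubgroup.closure ((fun j : ℕ => (f^[j]) x) '' Set.Iio d)) :
    ∃ m : ℕ, 0 < m ∧ (f^[m]) x = x := by
  set V := AddSubgroup.closure ((fun j : ℕ => (f^[j]) x) '' Set.Iio d) with hV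
  have hpx : ∀ n : ℕ, p • (f^[n]) x = 0 := by
    intro n
    rw [← FE_pow, ← map_nsmul, hx, map_zero]
  have hVf : ∀ v ∈ V, f v ∈ V := by
    intro v hv
    have h1 : V ≤ V.comap f.toAddMonoidHom := by
      rw [hV, AddSubgroup.closure_le]
      rintro _ ⟨j, hj, rfl⟩
      show f ((f^[j]) x) ∈ V
      rw [← Function.iterate_succ_apply' f j x]
      rcases Nat.lt_or_ge (j + 1) d with h | h
      · exact AddSubgroup.subset_closure ⟨j + 1, h, rfl⟩
      · have h2 : j.succ = d := by
          have h3 : j < d := hj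
          omega
        rw [h2]
        exact hd
    exact h1 hv
  have hVp : ∀ v ∈ V, p • v = 0 := by
    intro v hv
    refine AddSubgroup.closure_induction (p := fun v _ => p • v = 0) ?_ (smul_zero p) ?_ ?_ hv
    · rintro _ ⟨j, -, rfl⟩
      exact hpx j
    · intro a b _ _ ha hb
      rw [smul_add, ha, hb, add_zero]
    · intro a _ ha
      rw [smul_neg, ha, neg_zero]
  have hfg : AddGroup.FG V := by
    rw [AddGroup.fg_iff_addSubgroup_fg]
    exact (AddSubgroup.fg_iff _).2 ⟨_, hV.symm, (Set.finite_Iio d).image _⟩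
  have htor : IsAddTorsion V := by
    intro v
    rw [isOfFinAddOrder_iff_nsmul_eq_zero]
    exact ⟨p, hp, Subtype.ext (hVp v v.2)⟩
  have hfinV : Finite V := AddCommGroup.finite_of_fg_isAddTorsion V htor
  have hmem : ∀ n : ℕ, (f^[d + n]) x ∈ V := by
    intro n
    induction n with
    | zero => exact hd
    | succ n ih =>
      rw [← add_assoc, Function.iterate_succ_apply']
      exact hVf _ ih
  obtain ⟨a, b, hab, heq⟩ := Finite.exists_ne_map_eq_of_infinite
    (fun n : ℕ => (⟨(f^[d + n]) x, hmem n⟩ : V))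
  have key : ∀ a b : ℕ, a < b → (f^[d + a]) x = (f^[d + b]) x →
      ∃ m : ℕ, 0 < m ∧ (f^[m]) x = x := by
    intro a b hlt heq
    refine ⟨b - a, by omega, ?_⟩
    have h1 : d + b = (d + a) + (b - a) := by omega
    rw [h1, Function.iterate_add_apply (f : M → M) (d + a) (b - a)] at heq
    exact (f.injective.iterate (d + a) heq).symm
  have heq' : (f^[d + a]) x = (f^[d + b]) x := congrArg Subtype.val heq
  rcases lt_or_gt_of_ne hab with hlt | hlt
  · exact key a b hlt heq'
  · exact key b a hlt heq'.symm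

/-- a nontrivial relation modulo `p` -/
lemma of_relation {f : M ≃+ M} {x : M} {p : ℕ} (hp : p.Prime) (hx : p • x = 0) {n : ℕ} {a : ℕ → ℤ}
    (h0 : ∑ j ∈ Finset.range n, a j • (f^[j]) x = 0) (h1 : ∃ j < n, a j ≠ 0)
    (h2 : ∀ j, a j ≠ 0 → ¬ (p : ℤ) ∣ a j) : ∃ m : ℕ, 0 < m ∧ (f^[m]) x = x := by
  classical
  have hpx : ∀ n : ℕ, (p : ℤ) • (f^[n]) x = 0 := by
    intro n
    rw [natCast_zsmul, ← FE_pow, ← map_nsmul, hx, map_zero]
  obtain ⟨j0, hj0, hja⟩ := h1
  have hne : ((Finset.range n).filter (fun j => a j ≠ 0)).Nonempty :=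
    ⟨j0, Finset.mem_filter.2 ⟨Finset.mem_range.2 hj0, hja⟩⟩
  obtain ⟨d, hd, hmax⟩ := Finset.exists_max_image _ id hne
  rw [Finset.mem_filter, Finset.mem_range] at hd
  have hzero : ∀ j, d < j → j < n → a j = 0 := by
    intro j h3 h4
    by_contra h5
    have := hmax j (Finset.mem_filter.2 ⟨Finset.mem_range.2 h4, h5⟩)
    simp only [id] at this
    omega
  refine finite_orbit hp.pos hx (d := d) ?_
  set V := AddSubgroup.closure ((fun j : ℕ => (f^[j]) x) '' Set.Iio d) with hV
  have hsum : ∑ j ∈ Finset.range n, a j • (f^[j]) x = ∑ j ∈ Finset.range (d + 1), a j • (f^[j]) x := by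
    symm
    refine Finset.sum_subset (Finset.range_mono (by omega)) ?_
    intro j hj hj'
    rw [Finset.mem_range] at hj hj'
    rw [hzero j (by omega) hj, zero_smul]
  rw [hsum, Finset.sum_range_succ] at h0
  have h3 : a d • (f^[d]) x ∈ V := by
    have h4 : a d • (f^[d]) x = - ∑ j ∈ Finset.range d, a j • (f^[j]) x := by
      rw [eq_neg_iff_add_eq_zero, add_comm]
      exact h0
    rw [h4]
    refine V.neg_mem (V.sum_mem fun j hj => V.zsmul_mem ?_ _)
    exact AddSubgroup.subset_closure ⟨j, Finset.mem_range.1 hj, rfl⟩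
  have hcop : IsCoprime (a d) (p : ℤ) := by
    have := (Prime.coprime_iff_not_dvd (Nat.prime_iff_prime_int.1 hp)).2 (h2 d hd.2)
    exact this.symm
  obtain ⟨u, v, huv⟩ := hcop
  have h5 : (f^[d]) x = u • (a d • (f^[d]) x) + v • ((p : ℤ) • (f^[d]) x) := by
    rw [smul_smul, smul_smul, ← add_smul, huv, one_smul]
  rw [h5, hpx, smul_zero, add_zero]
  exact V.zsmul_mem h3 _

theorem tor : S_TOR := by
  intro M _ f hD hT N
  induction N using Nat.strong_induction_on with
  | _ N ih =>
    intro x hN hx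
    rcases Nat.lt_or_ge 1 N with h1 | h1
    · obtain ⟨p, hp, N', hN'⟩ := Nat.exists_prime_and_dvd (n := N) (by omega)
      have hp2 := hp.two_le
      have hN'0 : 0 < N' := by
        rcases Nat.eq_zero_or_pos N' with h | h
        · subst h; simp at hN'; omega
        · exact h
      have hlt : N' < N := by
        rw [hN']
        nlinarith
      -- the element `N' x` has a finite orbit
      have hpx : p • (N' • x) = 0 := by
        rw [smul_smul, ← hN']; exact hx
      have horb : ∃ m : ℕ, 0 < m ∧ (f^[m]) (N' • x) = N' • x := by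
        rcases Nat.lt_or_ge 2 p with h2 | h2
        · have h3 := hD 1 (N' • x) le_rfl
          unfold Dissociate at h3
          push Not at h3
          obtain ⟨n, a, ha, h0, j, hj, hja⟩ := h3
          simp only [one_mul] at h0
          refine of_relation hp hpx h0 ⟨j, hj, hja⟩ ?_
          intro i hi hdvd
          have h4 := Int.le_of_dvd (abs_pos.2 hi) ((dvd_abs _ _).2 hdvd)
          have h5 := ha i
          omega
        · have hp2' : p = 2 := by omega
          subst hp2'
          have h3 := hT (N' • x)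
          unfold TwoFree at h3
          rw [not_and] at h3
          have h4 := h3 (by
            rw [two_zsmul, ← two_nsmul]; exact hpx)
          push Not at h4
          obtain ⟨n, a, ha, h0, j, hj, hja⟩ := h4
          refine of_relation hp hpx h0 ⟨j, hj, hja⟩ ?_
          intro i hi hdvd
          rcases ha i with h5 | h5
          · exact hi h5
          · rw [h5] at hdvd
            norm_num at hdvd
      obtain ⟨m, hm, hmx⟩ := horb
      have h3 : N' • ((f^[m]) x - x) = 0 := by
        rw [smul_sub, ← FE_pow, ← map_nsmul, FE_pow, hmx, sub_self]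
      have h4 := ih N' hlt ((f^[m]) x - x) hN'0 h3
      refine QUni_of hm 1 ?_
      rw [pow_one]
      show QUni f (((FE f) ^ m) x - x)
      rw [FE_pow]
      exact h4
    · have : N = 1 := by omega
      subst this
      rw [one_smul] at hx
      exact ⟨1, one_pos, 0, hx⟩

end Pool.Agent.P8H44.PG
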